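import Mathlib

/-!
# MP_e3bb54_nt, Q1: multiplicative bases over the reals can be much smaller than over the integers

For every `ε < 1/2` and all large `n` there are a set `B` of `n` positive reals and a set `A` of
positive integers in `B B` that is not contained in `C C` for any set `C` of fewer than
`n^(1+ε)` positive integers.

Construction: take the incidence graph of points and (non-vertical) lines in the affine plane over
`ℤ/q`, which has no 4-cycles, and distinct primes `p'_i`, `p''_j`, `q_j` for the points `i` and the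
lines `j`. Put `r_i = p'_i ∏_{j ∋ i} q_j`, `s_j = p''_j / q_j`. For an incidence `(i, j)`, the
number `r_i s_j` is a squarefree integer, and in each factorisation of it into two integers one
of the factors divides no other `r_i' s_j'` with `(i', j')` an incidence.
-/

namespace Pool.Agent.Results.MP_e3bb54_nt.PositiveReals

open scoped Pointwise
open Finset

section graph

variable {I J : Type} [Fintype I] [Fintype J] [DecidableEq I] [DecidableEq J]

/-- indices of the primes -/
abbrev K (I J : Type) : Type := I ⊕ (J ⊕ J)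

theorem exists_primes (κ : Type) [Finite κ] :
    ∃ P : κ → ℕ, (∀ k, (P k).Prime) ∧ Function.Injective P := by
  obtain ⟨n, ⟨e⟩⟩ := Finite.exists_equiv_fin κ
  refine ⟨fun k => Nat.nth Nat.Prime (e k), fun k => Nat.prime_nth_prime _, ?_⟩
  intro a b hab
  have h := Nat.nth_injective Nat.infinite_setOfPred_prime hab
  exact e.injective (Fin.ext h)

variable (P : K I J → ℕ) (adj : I → J → Prop) [∀ i j, Decidable (adj i j)]

/-- the set of lines through `i` other than `j` -/
def nb (i : I) (j : J) : Finset J := Finset.univ.filter (fun j' => adj i j' ∧ j' ≠ j)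

/-- the integer attached to an edge -/
def av (i : I) (j : J) : ℕ :=
  P (Sum.inl i) * P (Sum.inr (Sum.inl j)) * ∏ j' ∈ nb adj i j, P (Sum.inr (Sum.inr j'))

theorem av_pos (hP : ∀ k, (P k).Prime) (i : I) (j : J) : 0 < av P adj i j := by
  unfold av
  refine Nat.mul_pos (Nat.mul_pos (hP _).pos (hP _).pos) ?_
  exact Finset.prod_pos (fun j' _ => (hP _).pos)

section dvd

variable {P} (hP : ∀ k, (P k).Prime) (hinj : Function.Injective P)

include hP hinj

theorem dvd_av_iff (k : K I J) (i : I) (j : J) :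
    P k ∣ av P adj i j ↔ k = Sum.inl i ∨ k = Sum.inr (Sum.inl j) ∨
      ∃ j' ∈ nb adj i j, k = Sum.inr (Sum.inr j') := by
  unfold av
  have hk := hP k
  rw [hk.dvd_mul, hk.dvd_mul, hk.prime.dvd_finsetProd_iff]
  have aux : ∀ l : K I J, P k ∣ P l ↔ k = l := by
    intro l
    rw [Nat.prime_dvd_prime_iff_eq hk (hP l)]
    exact ⟨fun h => hinj h, fun h => by rw [h]⟩
  simp only [aux]
  tauto

theorem inl_dvd_av_iff (i' i : I) (j : J) : P (Sum.inl i') ∣ av P adj i j ↔ i' = i := by
  rw [dvd_av_iff adj hP hinj]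
  simp

theorem inrl_dvd_av_iff (i : I) (j' j : J) :
    P (Sum.inr (Sum.inl j')) ∣ av P adj i j ↔ j' = j := by
  rw [dvd_av_iff adj hP hinj]
  simp

theorem inrr_dvd_av_iff (i : I) (j' j : J) :
    P (Sum.inr (Sum.inr j')) ∣ av P adj i j ↔ adj i j' ∧ j' ≠ j := by
  rw [dvd_av_iff adj hP hinj]
  simp [nb]

/-- In every factorisation of `av i j` one of the factors divides no other `av i' j'`. -/
theorem private_factor
    (hC4 : ∀ i i' j j', adj i j → adj i j' → adj i' j → adj i' j' → i = i' ∨ j = j')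
    {i : I} {j : J} (hij : adj i j) {c c' : ℕ} (hc : c * c' = av P adj i j) :
    ∃ v, (v = c ∨ v = c') ∧ v ∣ av P adj i j ∧
      ∀ i' j', adj i' j' → v ∣ av P adj i' j' → i' = i ∧ j' = j := by
  have main : ∀ c c' : ℕ, c * c' = av P adj i j → P (Sum.inl i) ∣ c →
      ∃ v, (v = c ∨ v = c') ∧ v ∣ av P adj i j ∧
      ∀ i' j', adj i' j' → v ∣ av P adj i' j' → i' = i ∧ j' = j := by
    intro c c' hc h1
    by_cases h2 : P (Sum.inr (Sum.inl j)) ∣ c
    · refine ⟨c, Or.inl rfl, Dvd.intro c' hc, ?_⟩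
      intro i' j' _ hv
      exact ⟨((inl_dvd_av_iff adj hP hinj i i' j').1 (h1.trans hv)).symm,
        ((inrl_dvd_av_iff adj hP hinj i' j j').1 (h2.trans hv)).symm⟩
    · have h2' : P (Sum.inr (Sum.inl j)) ∣ c' := by
        have : P (Sum.inr (Sum.inl j)) ∣ c * c' := by
          rw [hc, inrl_dvd_av_iff adj hP hinj]
        rcases (hP _).dvd_mul.1 this with h | h
        · exact absurd h h2
        · exact h
      by_cases h3 : ∃ j2, adj i j2 ∧ j2 ≠ j ∧ P (Sum.inr (Sum.inr j2)) ∣ c'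
      · obtain ⟨j2, hj2, hne, hdvd⟩ := h3
        refine ⟨c', Or.inr rfl, Dvd.intro_left c hc, ?_⟩
        intro i' j' hadj hv
        have e1 : j = j' := (inrl_dvd_av_iff adj hP hinj i' j j').1 (h2'.trans hv)
        have e2 := (inrr_dvd_av_iff adj hP hinj i' j2 j').1 (hdvd.trans hv)
        subst e1
        refine ⟨?_, rfl⟩
        rcases hC4 i i' j j2 hij hj2 hadj e2.1 with h | h
        · exact h.symm
        · exact absurd h.symm hne
      · push Not at h3
        refine ⟨c, Or.inl rfl, Dvd.intro c' hc, ?_⟩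
        intro i' j' hadj hv
        have e1 : i = i' := (inl_dvd_av_iff adj hP hinj i i' j').1 (h1.trans hv)
        subst e1
        refine ⟨rfl, ?_⟩
        by_contra hne
        have h4 : P (Sum.inr (Sum.inr j')) ∣ c * c' := by
          rw [hc, inrr_dvd_av_iff adj hP hinj]
          exact ⟨hadj, hne⟩
        rcases (hP _).dvd_mul.1 h4 with h | h
        · have := (inrr_dvd_av_iff adj hP hinj i j' j').1 (h.trans hv)
          exact this.2 rfl
        · exact h3 j' hadj hne h
  have h0 : P (Sum.inl i) ∣ c * c' := by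
    rw [hc, inl_dvd_av_iff adj hP hinj]
  rcases (hP _).dvd_mul.1 h0 with h | h
  · exact main c c' hc h
  · obtain ⟨v, hv, hv'⟩ := main c' c (by rw [mul_comm]; exact hc) h
    exact ⟨v, hv.symm, hv'⟩

end dvd

/-- the set of edges -/
def edges : Finset (I × J) := Finset.univ.filter (fun e => adj e.1 e.2)

theorem card_edges_le {P : K I J → ℕ} (hP : ∀ k, (P k).Prime) (hinj : Function.Injective P)
    (hC4 : ∀ i i' j j', adj i j → adj i j' → adj i' j → adj i' j' → i = i' ∨ j = j')
    (C : Finset ℕ) (hC : ∀ e ∈ edges adj, av P adj e.1 e.2 ∈ C * C) :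
    (edges adj).card ≤ C.card := by
  have h : ∀ e ∈ edges adj, ∃ v, v ∈ C ∧ v ∣ av P adj e.1 e.2 ∧
      ∀ i' j', adj i' j' → v ∣ av P adj i' j' → i' = e.1 ∧ j' = e.2 := by
    intro e he
    obtain ⟨c, hc, c', hc', hcc⟩ := Finset.mem_mul.1 (hC e he)
    obtain ⟨v, hv, hv'⟩ := private_factor adj hP hinj hC4 (Finset.mem_filter.1 he).2 hcc
    refine ⟨v, ?_, hv'⟩
    rcases hv with rfl | rfl
    · exact hc
    · exact hc'
  choose! f hf using h
  refine Finset.card_le_card_of_injOn f (fun e he => (hf e he).1) ?_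
  intro e he e' he' hee
  have h1 := (hf e' he').2.2 e.1 e.2 (Finset.mem_filter.1 he).2
    (by rw [← hee]; exact (hf e he).2.1)
  exact Prod.ext h1.1 h1.2

/-- the reals `r_i` -/
noncomputable def rr (i : I) : ℝ :=
  (P (Sum.inl i) : ℝ) * ∏ j' ∈ Finset.univ.filter (fun j' => adj i j'),
    (P (Sum.inr (Sum.inr j')) : ℝ)

/-- the reals `s_j` -/
noncomputable def ss (j : J) : ℝ :=
  (P (Sum.inr (Sum.inl j)) : ℝ) / (P (Sum.inr (Sum.inr j)) : ℝ)

theorem rr_pos {P : K I J → ℕ} (hP : ∀ k, (P k).Prime) (i : I) : 0 < rr P adj i := by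
  unfold rr
  refine mul_pos (by exact_mod_cast (hP _).pos) ?_
  exact Finset.prod_pos (fun j' _ => by exact_mod_cast (hP _).pos)

omit [Fintype I] [Fintype J] [DecidableEq I] [DecidableEq J] in
theorem ss_pos {P : K I J → ℕ} (hP : ∀ k, (P k).Prime) (j : J) : 0 < ss P j := by
  unfold ss
  refine div_pos ?_ ?_ <;> exact_mod_cast (hP _).pos

theorem rr_mul_ss {P : K I J → ℕ} (hP : ∀ k, (P k).Prime) {i : I} {j : J} (hij : adj i j) :
    (av P adj i j : ℝ) = rr P adj i * ss P j := by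
  have h1 : Finset.univ.filter (fun j' => adj i j') = insert j (nb adj i j) := by
    ext j'
    simp only [Finset.mem_filter, Finset.mem_univ, true_and, Finset.mem_insert, nb]
    constructor
    · intro h
      by_cases e : j' = j
      · exact Or.inl e
      · exact Or.inr ⟨h, e⟩
    · rintro (rfl | h)
      · exact hij
      · exact h.1
  have h2 : j ∉ nb adj i j := by simp [nb]
  have h3 : (P (Sum.inr (Sum.inr j)) : ℝ) ≠ 0 := by
    exact_mod_cast (hP _).ne_zero
  unfold rr ss av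
  rw [h1, Finset.prod_insert h2]
  push_cast
  field_simp

/-- a set of positive reals is contained in sets of positive reals of all larger sizes -/
theorem exists_superset (B0 : Finset ℝ) (h0 : ∀ b ∈ B0, 0 < b) (n : ℕ) (hn : B0.card ≤ n) :
    ∃ B : Finset ℝ, B0 ⊆ B ∧ B.card = n ∧ ∀ b ∈ B, 0 < b := by
  have : Infinite {x : ℝ // 0 < x} := by
    refine Infinite.of_injective (fun m : ℕ => (⟨(m : ℝ) + 1, by positivity⟩ : {x : ℝ // 0 < x})) ?_
    intro a b hab
    have := congrArg Subtype.val hab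
    simp only at this
    have h2 : (a : ℝ) = b := by linarith
    exact_mod_cast h2
  have h1 : (B0.subtype (fun x => 0 < x)).card ≤ n := by
    rw [Finset.card_subtype]
    exact (Finset.card_filter_le _ _).trans hn
  obtain ⟨B, hB, hBc⟩ := Infinite.exists_superset_card_eq _ n h1
  refine ⟨B.map (Function.Embedding.subtype _), ?_, by rw [Finset.card_map, hBc], ?_⟩
  · intro b hb
    exact Finset.mem_map.2 ⟨⟨b, h0 b hb⟩, hB (Finset.mem_subtype.2 hb), rfl⟩
  · intro b hb
    obtain ⟨x, -, rfl⟩ := Finset.mem_map.1 hb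
    exact x.2

/-- The construction from a graph without 4-cycles. -/
theorem construction
    (hC4 : ∀ i i' j j', adj i j → adj i j' → adj i' j → adj i' j' → i = i' ∨ j = j')
    (n : ℕ) (hn : Fintype.card I + Fintype.card J ≤ n) :
    ∃ (B : Finset ℝ) (A : Finset ℕ), B.card = n ∧ (∀ b ∈ B, 0 < b) ∧ (∀ a ∈ A, 0 < a) ∧
      (∀ a ∈ A, ∃ x ∈ B, ∃ y ∈ B, (a : ℝ) = x * y) ∧
      ∀ C : Finset ℕ, A ⊆ C * C → (edges adj).card ≤ C.card := by
  obtain ⟨P, hP, hinj⟩ := exists_primes (K I J)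
  have h0 : ((Finset.univ.image (rr P adj)) ∪ (Finset.univ.image (ss P))).card ≤ n := by
    refine (Finset.card_union_le _ _).trans (le_trans ?_ hn)
    exact Nat.add_le_add Finset.card_image_le Finset.card_image_le
  obtain ⟨B, hB0, hBc, hBp⟩ := exists_superset _ (by
    intro b hb
    rcases Finset.mem_union.1 hb with hb | hb
    · obtain ⟨i, -, rfl⟩ := Finset.mem_image.1 hb
      exact rr_pos adj hP i
    · obtain ⟨j, -, rfl⟩ := Finset.mem_image.1 hb
      exact ss_pos hP j) n h0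
  refine ⟨B, (edges adj).image (fun e => av P adj e.1 e.2), hBc, hBp, ?_, ?_, ?_⟩
  · intro a ha
    obtain ⟨e, -, rfl⟩ := Finset.mem_image.1 ha
    exact av_pos P adj hP e.1 e.2
  · intro a ha
    obtain ⟨e, he, rfl⟩ := Finset.mem_image.1 ha
    refine ⟨rr P adj e.1, ?_, ss P e.2, ?_, rr_mul_ss adj hP (Finset.mem_filter.1 he).2⟩
    · exact hB0 (Finset.mem_union_left _ (Finset.mem_image_of_mem _ (Finset.mem_univ _)))
    · exact hB0 (Finset.mem_union_right _ (Finset.mem_image_of_mem _ (Finset.mem_univ _)))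
  · intro C hC
    exact card_edges_le adj hP hinj hC4 C
      (fun e he => hC (Finset.mem_image_of_mem (fun e => av P adj e.1 e.2) he))

end graph

/-- incidence of the point `(x, y)` and the line `y = m x + b` -/
def inc (q : ℕ) (i j : ZMod q × ZMod q) : Prop := i.2 = j.1 * i.1 + j.2

instance (q : ℕ) (i j : ZMod q × ZMod q) : Decidable (inc q i j) := by
  unfold inc
  infer_instance

theorem inc_C4 (q : ℕ) (hq : q.Prime) (i i' j j' : ZMod q × ZMod q) (h1 : inc q i j)
    (h2 : inc q i j') (h3 : inc q i' j) (h4 : inc q i' j') : i = i' ∨ j = j' := by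
  have : Fact q.Prime := ⟨hq⟩
  unfold inc at h1 h2 h3 h4
  have e : (j.1 - j'.1) * (i.1 - i'.1) = 0 := by
    linear_combination h2 - h1 + h3 - h4
  rcases mul_eq_zero.1 e with h | h
  · right
    have e1 : j.1 = j'.1 := sub_eq_zero.1 h
    refine Prod.ext e1 ?_
    rw [e1] at h1
    exact add_left_cancel (h1.symm.trans h2)
  · left
    have e1 : i.1 = i'.1 := sub_eq_zero.1 h
    refine Prod.ext e1 ?_
    rw [h1, h3, e1]

theorem card_edges_inc (q : ℕ) (hq : q.Prime) :
    have : NeZero q := ⟨hq.ne_zero⟩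
    q ^ 3 ≤ (edges (inc q)).card := by
  have : NeZero q := ⟨hq.ne_zero⟩
  have h : Fintype.card (ZMod q × ZMod q × ZMod q) ≤ (edges (inc q)).card := by
    rw [← Finset.card_univ]
    refine Finset.card_le_card_of_injOn
      (fun t => ((t.1, t.2.1 * t.1 + t.2.2), (t.2.1, t.2.2))) ?_ ?_
    · intro t _
      simp only [Finset.mem_coe, edges, Finset.mem_filter, Finset.mem_univ, true_and, inc]
    · rintro ⟨x, m, b⟩ _ ⟨x', m', b'⟩ _ hh
      simp only [Prod.mk.injEq] at hh ⊢
      exact ⟨hh.1.1, hh.2.1, hh.2.2⟩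
  rw [Fintype.card_prod, Fintype.card_prod, ZMod.card] at h
  calc q ^ 3 = q * (q * q) := by ring
    _ ≤ _ := h

/-- For every `ε < 1/2` there is `n₀` such that for every `n > n₀` there are a set `B` of `n`
positive reals and a set `A` of positive integers, all of them products of two elements of `B`,
such that `A ⊄ C C` for every set `C` of positive integers with `|C| < n^(1+ε)`. -/
theorem result :
    ∀ ε : ℝ, ε < 1 / 2 → ∃ n₀ : ℕ, ∀ n : ℕ, n₀ < n →
      ∃ (B : Finset ℝ) (A : Finset ℕ), B.card = n ∧ (∀ b ∈ B, 0 < b) ∧ (∀ a ∈ A, 0 < a) ∧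
        (∀ a ∈ A, ∃ x ∈ B, ∃ y ∈ B, (a : ℝ) = x * y) ∧
        ∀ C : Finset ℕ, (∀ c ∈ C, 0 < c) → (C.card : ℝ) < (n : ℝ) ^ (1 + ε) → ¬ A ⊆ C * C := by
  intro ε hε
  have hη : 0 < 1 / 2 - ε := by linarith
  obtain ⟨n₀, hn₀⟩ := exists_nat_gt ((23 : ℝ) ^ (1 / (1 / 2 - ε)))
  refine ⟨n₀ + 8, ?_⟩
  intro n hn
  set m := Nat.sqrt (n / 8) with hm
  have hm0 : m ≠ 0 := by
    have : 0 < Nat.sqrt (n / 8) := Nat.sqrt_pos.2 (by omega)
    omega
  obtain ⟨q, hq, hmq, hq2⟩ := Nat.exists_prime_lt_and_le_two_mul m hm0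
  have h1 : 2 * q ^ 2 ≤ n := by
    have e1 : m * m ≤ n / 8 := Nat.sqrt_le _
    have e2 : q * q ≤ (2 * m) * (2 * m) := Nat.mul_le_mul hq2 hq2
    have e3 : 8 * (m * m) ≤ n := by omega
    nlinarith
  have h2 : n < 8 * q ^ 2 := by
    have e1 : n / 8 < (m + 1) * (m + 1) := Nat.lt_succ_sqrt _
    have e2 : (m + 1) * (m + 1) ≤ q * q := Nat.mul_le_mul hmq hmq
    have e3 : n / 8 < q ^ 2 := by nlinarith
    omega
  have : NeZero q := ⟨hq.ne_zero⟩
  obtain ⟨B, A, hBc, hBp, hAp, hA, hC⟩ := construction (inc q) (inc_C4 q hq) n (by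
    rw [Fintype.card_prod, ZMod.card]
    nlinarith)
  refine ⟨B, A, hBc, hBp, hAp, hA, ?_⟩
  intro C _ hCc hAC
  have h3 := hC C hAC
  have h4 := card_edges_inc q hq
  have h5 : ((q : ℝ)) ^ 3 ≤ (C.card : ℝ) := by exact_mod_cast h4.trans h3
  have hnpos : (0 : ℝ) < n := by
    have : 0 < n := by omega
    exact_mod_cast this
  have hqpos : (0 : ℝ) < q := by exact_mod_cast hq.pos
  have h6 : (n : ℝ) ^ (1 + ε) ≤ (q : ℝ) ^ 3 := by
    have e1 : (23 : ℝ) ≤ (n : ℝ) ^ (1 / 2 - ε) := by
      have e2 : (23 : ℝ) ^ (1 / (1 / 2 - ε)) ≤ (n : ℝ) := by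
        refine hn₀.le.trans ?_
        have : n₀ ≤ n := by omega
        exact_mod_cast this
      have e3 := Real.rpow_le_rpow (by positivity) e2 hη.le
      rwa [← Real.rpow_mul (by norm_num), one_div_mul_cancel hη.ne', Real.rpow_one] at e3
    have e4 : (n : ℝ) ^ (1 + ε) * (n : ℝ) ^ (1 / 2 - ε) = (n : ℝ) ^ (3 / 2 : ℝ) := by
      rw [← Real.rpow_add hnpos]
      congr 1
      ring
    have e5 : (n : ℝ) ^ (3 / 2 : ℝ) ≤ 23 * (q : ℝ) ^ 3 := by
      have e6 : (n : ℝ) ≤ 8 * (q : ℝ) ^ 2 := by exact_mod_cast h2.le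
      have e7 : (n : ℝ) ^ (3 / 2 : ℝ) ≤ (8 * (q : ℝ) ^ 2) ^ (3 / 2 : ℝ) :=
        Real.rpow_le_rpow hnpos.le e6 (by norm_num)
      refine e7.trans ?_
      have e8 : ((8 * (q : ℝ) ^ 2) ^ (3 / 2 : ℝ)) ^ 2 = 512 * (q : ℝ) ^ 6 := by
        rw [← Real.rpow_natCast, ← Real.rpow_mul (by positivity)]
        norm_num
        ring
      have e9 : 0 ≤ (8 * (q : ℝ) ^ 2) ^ (3 / 2 : ℝ) := by positivity
      have e10 : ((8 * (q : ℝ) ^ 2) ^ (3 / 2 : ℝ)) ^ 2 ≤ (23 * (q : ℝ) ^ 3) ^ 2 := by
        rw [e8]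
        nlinarith [pow_pos hqpos 6]
      exact le_of_sq_le_sq e10 (by positivity)
    have e11 : 23 * (n : ℝ) ^ (1 + ε) ≤ 23 * (q : ℝ) ^ 3 := by
      refine le_trans ?_ e5
      rw [← e4, mul_comm]
      exact mul_le_mul_of_nonneg_left e1 (by positivity)
    linarith
  linarith

end Pool.Agent.Results.MP_e3bb54_nt.PositiveReals
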